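import Pool.Agent.Helper83.SU.St

/-!
# Project SU (MP_f663dd_lc), module ST
-/

set_option autoImplicit false

namespace Pool.Agent.Helper81.SU

open Pool.Agent.Helper83.SU Pool.Agent.Helper83.CK Cardinal Set

universe u

theorem st_ot_univ (o : Ordinal.{u}) : ot (univ : Set o.ToType) = o := by
  unfold ot
  conv_rhs => rw [← Ordinal.type_toType o]
  apply Ordinal.type_eq.2
  exact ⟨⟨Equiv.Set.univ o.ToType, Iff.rfl⟩⟩

theorem mST : StOT.{u} → StST.{u} := by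
  intro hOT k τ _ hτ ⟨C, hC⟩
  obtain ⟨_, _, h3, h4, _⟩ := hOT (Order.succ τ).ord.ToType
  obtain ⟨b, _, hb⟩ := h3 univ τ.ord (by
    rw [st_ot_univ]
    exact Cardinal.ord_lt_ord.2 (Order.lt_succ τ))
  rw [univ_inter] at hb
  refine ⟨C, b, ?_, ?_⟩
  · intro δ hδ
    obtain ⟨h5, h6, _, h8⟩ := hC δ hδ
    exact ⟨h5, h6, fun γ hγ hl => (h8 γ hγ hl).2⟩
  · rintro δ hbδ ⟨X, hX, _, hcof⟩
    have hL : Lim δ univ := by
      refine ⟨⟨b, hbδ⟩, ?_⟩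
      intro ξ hξ
      obtain ⟨x, hx, hx2⟩ := hcof ξ hξ
      exact ⟨x, mem_univ _, hx2, hX hx⟩
    calc ot (C δ) ≤ τ.ord := (hC δ hL).2.2.1
      _ = ot (Iio b) := hb.symm
      _ < ot (Iio δ) := (h4 b δ).2 hbδ

end Pool.Agent.Helper81.SU
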